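import Pool.Agent.H17.VS.TargetsB
import Pool.Agent.H97.VG.CD

/-!
# MP_70ba79_ag: NAV, choice of columns
-/

set_option autoImplicit false

namespace Pool.Agent.H96.VS

open MvPolynomial SC Pool.Agent.H27.LV Pool.Agent.H17.VG Pool.Agent.H17.CI Pool.Agent.H17.VS

section Lin

variable {K : Type} [Field K]

private theorem det_ne_zero_of_indep {ι m : Type} [Fintype ι] [DecidableEq ι]
    (e0 : ι ≃ m) (M : Matrix m ι K) (h : LinearIndependent K (fun c r => M r c)) :
    (M.submatrix e0 id).det ≠ 0 := by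
  have h1 : LinearIndependent K (M.submatrix e0 id).col := by
    have h2 := h.map' (LinearEquiv.funCongrLeft K K e0).toLinearMap
      (LinearEquiv.ker (LinearEquiv.funCongrLeft K K e0))
    exact h2
  have h3 := Matrix.linearIndependent_cols_iff_isUnit.1 h1
  rw [Matrix.isUnit_iff_isUnit_det] at h3
  exact h3.ne_zero

/-- choice of columns -/
private theorem choose_cols {κ ζ β : Type} [Fintype κ] [Fintype ζ] [Fintype β]
    (v : (κ ⊕ Unit) ⊕ ζ → (β → K)) (hspan : Submodule.span K (Set.range v) = ⊤)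
    (hind : ∀ u : Unit ⊕ ζ → K, u (Sum.inl ()) • v (Sum.inl (Sum.inr ())) +
      ∑ z, u (Sum.inr z) • v (Sum.inr z) = 0 → ∀ c, u c = 0) :
    ∃ (T : Finset κ) (_ : (T ⊕ Unit) ⊕ ζ ≃ β),
      LinearIndependent K (v ∘ (Sum.map (Sum.map (fun c : T => c.1) id) id :
        (T ⊕ Unit) ⊕ ζ → (κ ⊕ Unit) ⊕ ζ)) := by
  classical
  let h0 : Unit ⊕ ζ → (κ ⊕ Unit) ⊕ ζ :=
    Sum.elim (fun u => Sum.inl (Sum.inr u)) Sum.inr
  have hh0 : Function.Injective h0 := by
    rintro (u | z) (u' | z') h
    · rfl
    · exact absurd h (by simp [h0])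
    · exact absurd h (by simp [h0])
    · exact congrArg Sum.inr (Sum.inr_injective h)
  have hind' : LinearIndepOn K v (Set.range h0) := by
    rw [linearIndepOn_range_iff hh0, Fintype.linearIndependent_iff]
    intro u hu
    refine hind u ?_
    rw [Fintype.sum_sum_type] at hu
    simp only [Function.comp_apply, h0, Sum.elim_inl, Sum.elim_inr] at hu
    rw [Fintype.sum_unique] at hu
    exact hu
  obtain ⟨Bs, -, hB1, hB2, hB3⟩ := exists_linearIndepOn_extension hind' (Set.subset_univ _)
  set T : Finset κ := Finset.univ.filter fun c => Sum.inl (Sum.inl c) ∈ Bs with hT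
  let g : (T ⊕ Unit) ⊕ ζ → (κ ⊕ Unit) ⊕ ζ := Sum.map (Sum.map (fun c => c.1) id) id
  have hg : Function.Injective g :=
    (Subtype.val_injective.sumMap Function.injective_id).sumMap Function.injective_id
  have hgB : Set.range g = Bs := by
    ext c
    constructor
    · rintro ⟨(c | t) | z, rfl⟩
      · exact (Finset.mem_filter.1 c.2).2
      · exact hB1 ⟨Sum.inl t, rfl⟩
      · exact hB1 ⟨Sum.inr z, rfl⟩
    · intro hc
      rcases c with (c | t) | z
      · exact ⟨Sum.inl (Sum.inl ⟨c, Finset.mem_filter.2 ⟨Finset.mem_univ c, hc⟩⟩), rfl⟩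
      · exact ⟨Sum.inl (Sum.inr t), rfl⟩
      · exact ⟨Sum.inr z, rfl⟩
  have hli : LinearIndependent K (v ∘ g) := by
    rw [← linearIndepOn_range_iff hg, hgB]
    exact hB3
  have hsp : Submodule.span K (Set.range (v ∘ g)) = ⊤ := by
    rw [Set.range_comp, hgB, eq_top_iff, ← hspan, Submodule.span_le]
    rw [Set.image_univ] at hB2
    exact hB2
  have hcard : Fintype.card ((T ⊕ Unit) ⊕ ζ) = Fintype.card β := by
    have h1 := finrank_span_eq_card hli
    rw [hsp, finrank_top, Module.finrank_fintype_fun_eq_card] at h1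
    exact h1.symm
  exact ⟨T, Fintype.equivOfCardEq hcard, hli⟩

/-- the vector `w` in the upper rows -/
private noncomputable def upB (β σ : Type) : (β → K) →ₗ[K] (β ⊕ σ → K) where
  toFun w := Sum.elim w 0
  map_add' a b := by
    funext r
    rcases r with r | r
    · rfl
    · exact (add_zero (0 : K)).symm
  map_smul' c a := by
    funext r
    rcases r with r | r
    · rfl
    · exact (smul_zero c).symm

end Lin

section

variable {R K : Type} [Field R] [Field K] [Algebra R K] {n : ℕ} {ι : Type}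

private theorem der_sum {ι : Type} (s : Finset ι)
    (D : ι → Derivation R K K) (z : K) : (∑ i ∈ s, D i) z = ∑ i ∈ s, D i z := by
  classical
  induction s using Finset.induction_on with
  | empty => rw [Finset.sum_empty, Finset.sum_empty, Derivation.zero_apply]
  | insert a s ha ih => rw [Finset.sum_insert ha, Finset.sum_insert ha, Derivation.add_apply, ih]

private theorem cD_der_add (θ θ' : Derivation R K K) (G : MvPolynomial (Fin (n + 1)) K) :
    cD (θ + θ') G = cD θ G + cD θ' G := by
  ext m
  rw [Pool.Agent.H97.VG.cD_coeff, coeff_add, Pool.Agent.H97.VG.cD_coeff,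
    Pool.Agent.H97.VG.cD_coeff, Derivation.add_apply]

private theorem cD_der_sub (θ θ' : Derivation R K K) (G : MvPolynomial (Fin (n + 1)) K) :
    cD (θ - θ') G = cD θ G - cD θ' G := by
  ext m
  rw [Pool.Agent.H97.VG.cD_coeff, coeff_sub, Pool.Agent.H97.VG.cD_coeff,
    Pool.Agent.H97.VG.cD_coeff, Derivation.sub_apply]

private theorem cD_der_smul (c : K) (θ : Derivation R K K) (G : MvPolynomial (Fin (n + 1)) K) :
    cD (c • θ) G = C c * cD θ G := by
  ext m
  rw [Pool.Agent.H97.VG.cD_coeff, coeff_C_mul, Pool.Agent.H97.VG.cD_coeff,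
    Derivation.smul_apply, smul_eq_mul]

private theorem cD_der_sum {κ : Type} (s : Finset κ) (θ : κ → Derivation R K K)
    (G : MvPolynomial (Fin (n + 1)) K) : cD (∑ i ∈ s, θ i) G = ∑ i ∈ s, cD (θ i) G := by
  ext m
  rw [Pool.Agent.H97.VG.cD_coeff, coeff_sum, der_sum]
  exact Finset.sum_congr rfl fun i _ => (Pool.Agent.H97.VG.cD_coeff _ _ _).symm

/-- the elements of `PQT x Q` -/
private theorem PQT_rep {s : ℕ} (x : Fin (n + 1) → K) (Q : Fin s → Tup ι K n) (G : Tup ι K n)
    (hG : G ∈ PQT x Q) : ∃ ξ : Fin s → Fin (n + 1) → K, (∀ j, ∑ i, ξ j i * x i = 0) ∧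
      ∀ a, G a = ∑ j, ∑ i, C (ξ j i) * (X i * Q j a) := by
  classical
  unfold PQT at hG
  induction hG using Submodule.span_induction with
  | mem G hG =>
    obtain ⟨ξ, j, hξ, rfl⟩ := hG
    refine ⟨Pi.single j ξ, ?_, ?_⟩
    · intro j'
      by_cases h : j' = j
      · subst h
        rw [Pi.single_eq_same]
        exact hξ
      · rw [Pi.single_eq_of_ne h]
        simp
    · intro a
      rw [Finset.sum_eq_single j]
      · rw [Pi.single_eq_same]
        show lin ξ * Q j a = _
        unfold lin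
        rw [Finset.sum_mul]
        exact Finset.sum_congr rfl fun i _ => mul_assoc _ _ _
      · intro j' _ h
        rw [Pi.single_eq_of_ne h]
        simp
      · intro h
        exact absurd (Finset.mem_univ _) h
  | zero => exact ⟨0, fun j => by simp, fun a => by simp⟩
  | add G G' _ _ h h' =>
    obtain ⟨ξ, h1, h2⟩ := h
    obtain ⟨ξ', h3, h4⟩ := h'
    refine ⟨ξ + ξ', ?_, ?_⟩
    · intro j
      simp only [Pi.add_apply, add_mul, Finset.sum_add_distrib, h1, h3, add_zero]
    · intro a
      simp only [Pi.add_apply, map_add, add_mul, Finset.sum_add_distrib, h2, h4]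
  | smul c G _ h =>
    obtain ⟨ξ, h1, h2⟩ := h
    refine ⟨c • ξ, ?_, ?_⟩
    · intro j
      simp only [Pi.smul_apply, smul_eq_mul, mul_assoc, ← Finset.mul_sum, h1, mul_zero]
    · intro a
      simp only [Pi.smul_apply, smul_eq_mul, map_mul, mul_assoc, ← Finset.mul_sum, h2,
        smul_eq_C_mul]

/-- the functional of the gradient on velocities -/
private theorem grB_vel {B : Finset (Fin n)} {x : Fin (n + 1) → K} {g : Fin n → B → K}
    (hx0 : x 0 = 1) (hFr : Fr R x B g) (F : Tup ι K n) (i : ι) (θ : Derivation R K K) :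
    ∑ b, θ (x b.1.succ) * grB F x g i b = ∑ j, θ (x j) * eval x (pderiv j (F i)) := by
  have h0 : θ (x 0) = 0 := by rw [hx0, ← map_one (algebraMap R K), θ.map_algebraMap]
  rw [Fin.sum_univ_succ, h0, zero_mul, zero_add]
  have h1 : ∑ a : Fin n, θ (x a.succ) * eval x (pderiv a.succ (F i)) =
      ∑ a : Fin n, (∑ b, g a b * θ (x b.1.succ)) * eval x (pderiv a.succ (F i)) :=
    Finset.sum_congr rfl fun a _ => by rw [← hFr.rel θ a]
  rw [h1]
  simp only [grB, Finset.mul_sum, Finset.sum_mul]
  rw [Finset.sum_comm]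
  refine Finset.sum_congr rfl fun a _ => Finset.sum_congr rfl fun b _ => ?_
  ring

private theorem gJB_inj {A : Finset ι} {B : Finset (Fin n)} (F : Tup ι K n)
    (x : Fin (n + 1) → K) (g : Fin n → B → K) (J : A → B) (hJ : gJB F x g J ≠ 0) (u : A → K)
    (h : ∀ i : A, ∑ z : A, grB F x g i (J z) * u z = 0) : u = 0 := by
  unfold gJB at hJ
  letI := Classical.decEq ι
  refine Matrix.eq_zero_of_mulVec_eq_zero hJ ?_
  funext i
  exact h i

end

/-- NAV -/
theorem pf_NAV (hUV : T_UVM) (hTZ : T_TZV) : T_NAV := by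
  intro R k K _ _ _ _ _ _ n s ι _ _ e F D D' Z x hS hDD hPt B g hFr Q θ θ' hθ hθ' hfin J hJ
  classical
  have hp : x 0 = 1 := hPt.one
  obtain ⟨hE1, -, -, -⟩ := hTZ R K n ι e F D' Z x hS hPt B g hFr
  -- the columns
  set M := bigV D x (fun c : (Fin (n + 1) × Fin s) ⊕ ι => Sum.elim (fun p => θ p.1 p.2) θ' c)
    (fun c => Sum.elim (fun p => p.1) (fun _ => 0) c)
    (fun c => Sum.elim (fun p => some p.2) (fun _ => none) c) J with hM
  set v : (((Fin (n + 1) × Fin s) ⊕ ι) ⊕ Unit) ⊕ Z → (B ⊕ Fin s → K) := fun c r => M r c with hv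
  have hvD : v (Sum.inl (Sum.inr ())) = upB B (Fin s) (fun a => D (x a.1.succ)) := by
    funext r
    rcases r with r | r <;> rfl
  have hvZ : ∀ z, v (Sum.inr z) = upB B (Fin s) (Pi.single (J z) 1) := by
    intro z
    funext r
    rcases r with r | r
    · show (if J z = r then (1 : K) else 0) = (Pi.single (J z) 1 : B → K) r
      rw [Pi.single_apply]
      simp only [eq_comm]
    · rfl
  have hvc : ∀ i j, v (Sum.inl (Sum.inl (Sum.inl (i, j)))) =
      Sum.elim (fun a : B => θ i j (x a.1.succ)) (fun b => if j = b then x i else 0) := by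
    intro i j
    funext r
    rcases r with r | r
    · rfl
    · show (if some j = some r then x i else 0) = (if j = r then x i else 0)
      simp only [Option.some_inj]
  have hvi : ∀ i, v (Sum.inl (Sum.inl (Sum.inr i))) =
      upB B (Fin s) (fun a : B => θ' i (x a.1.succ)) := by
    intro i
    funext r
    rcases r with r | r
    · rfl
    · show (if (none : Option (Fin s)) = some r then x 0 else 0) = 0
      exact if_neg (by simp)
  have hsub : ∀ c, v c ∈ Submodule.span K (Set.range v) := fun c => Submodule.subset_span ⟨c, rfl⟩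
  -- tangent vectors
  have hN1 : ∀ w ∈ TZ R Z F x, upB B (Fin s) (fun b : B => w b.1.succ) ∈
      Submodule.span K (Set.range v) := by
    intro w hw
    rw [← hfin, hUV] at hw
    obtain ⟨θ0, l, hW, rfl⟩ := hw
    obtain ⟨ξ, hξ0, hξ⟩ := PQT_rep x Q _ hW
    obtain ⟨c, hc⟩ := hS.ker (θ0 - ∑ j, ∑ i, ξ j i • θ i j + ∑ i, l i • θ' i) (by
      intro a
      rw [cD_der_add, cD_der_sub, cD_der_sum, cD_der_sum]
      have h1 : cD θ0 (F a) = ∑ j, ∑ i, C (ξ j i) * (X i * Q j a) - C (l a) * F a := by
        rw [← hξ a]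
        show _ = cD θ0 (F a) + C (l a) * F a - C (l a) * F a
        rw [add_sub_cancel_right]
      have h2 : ∑ j, cD (∑ i, ξ j i • θ i j) (F a) = ∑ j, ∑ i, C (ξ j i) * (X i * Q j a) := by
        refine Finset.sum_congr rfl fun j _ => ?_
        rw [cD_der_sum]
        refine Finset.sum_congr rfl fun i _ => ?_
        rw [cD_der_smul, hθ]
      have h3 : ∑ i, cD (l i • θ' i) (F a) = C (l a) * F a := by
        rw [Finset.sum_eq_single a]
        · rw [cD_der_smul, hθ', if_pos rfl]
        · intro i _ hi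
          rw [cD_der_smul, hθ', if_neg (Ne.symm hi), mul_zero]
        · intro h
          exact absurd (Finset.mem_univ _) h
      rw [h1, h2, h3]
      ring)
    have h1 : ∀ z, θ0 z = ∑ j, ∑ i, ξ j i * θ i j z - ∑ i, l i * θ' i z + c * D z := by
      intro z
      have h2 := congrArg (fun δ : Derivation R K K => δ z) hc
      simp only [Derivation.add_apply, Derivation.sub_apply, der_sum, Derivation.smul_apply,
        smul_eq_mul, hDD] at h2
      linear_combination h2
    have h3 : upB B (Fin s) (fun b : B => θ0 (x b.1.succ)) =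
        ∑ j, ∑ i, ξ j i • v (Sum.inl (Sum.inl (Sum.inl (i, j)))) -
          ∑ i, l i • v (Sum.inl (Sum.inl (Sum.inr i))) + c • v (Sum.inl (Sum.inr ())) := by
      rw [hvD]
      simp only [hvc, hvi]
      funext r
      simp only [Pi.add_apply, Pi.sub_apply, Finset.sum_apply, Pi.smul_apply, smul_eq_mul]
      rcases r with b | b
      · exact h1 (x b.1.succ)
      · show (0 : K) = ∑ j, ∑ i, ξ j i * (if j = b then x i else 0) - ∑ i, l i * 0 + c * 0
        rw [Finset.sum_eq_single b]
        · simp only [if_true, hξ0, mul_zero, Finset.sum_const_zero, sub_zero, add_zero]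
        · intro j _ hj
          simp only [if_neg hj, mul_zero, Finset.sum_const_zero]
        · intro h
          exact absurd (Finset.mem_univ _) h
    rw [h3]
    refine Submodule.add_mem _ (Submodule.sub_mem _ (Submodule.sum_mem _ fun j _ =>
      Submodule.sum_mem _ fun i _ => Submodule.smul_mem _ _ (hsub _))
      (Submodule.sum_mem _ fun i _ => Submodule.smul_mem _ _ (hsub _)))
      (Submodule.smul_mem _ _ (hsub _))
  -- the functionals
  let Gm : Matrix Z Z K := Matrix.of fun i z => grB F x g i (J z)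
  have hJu := gJB_inj F x g J hJ
  have hGdet : Gm.det ≠ 0 := by
    intro h0
    obtain ⟨u, hu, hu0⟩ := Matrix.exists_mulVec_eq_zero_iff.2 h0
    exact hu (hJu u fun i => congrFun hu0 i)
  have hGunit : IsUnit Gm.det := isUnit_iff_ne_zero.2 hGdet
  have hZsum : ∀ (c : Z → K) (i : Z), ∑ b : B, (∑ z, c z • (Pi.single (J z) 1 : B → K)) b *
      grB F x g i b = ∑ z, Gm i z * c z := by
    intro c i
    simp only [Finset.sum_apply, Pi.smul_apply, Pi.single_apply, smul_eq_mul, Finset.sum_mul]
    rw [Finset.sum_comm]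
    refine Finset.sum_congr rfl fun z _ => ?_
    rw [Finset.sum_eq_single (J z)]
    · rw [if_pos rfl, mul_one, mul_comm]
      rfl
    · intro b _ hb
      rw [if_neg hb, mul_zero, zero_mul]
    · intro h
      exact absurd (Finset.mem_univ _) h
  have hup : ∀ w : B → K, upB B (Fin s) w ∈ Submodule.span K (Set.range v) := by
    intro w
    obtain ⟨y, hy⟩ : ∃ y : Z → K, y = fun i : Z => ∑ b, w b * grB F x g i b := ⟨_, rfl⟩
    obtain ⟨c, hc⟩ : ∃ c : Z → K, Gm.mulVec c = y := by
      refine ⟨Gm⁻¹.mulVec y, ?_⟩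
      rw [Matrix.mulVec_mulVec, Matrix.mul_nonsing_inv _ hGunit, Matrix.one_mulVec]
    rw [hy] at hc
    obtain ⟨w', hw'⟩ : ∃ w' : B → K, w' = w - ∑ z, c z • (Pi.single (J z) 1 : B → K) := ⟨_, rfl⟩
    obtain ⟨θ0, hθ0⟩ := hFr.surj w'
    have h1 : (fun i => θ0 (x i)) ∈ TZ R Z F x := by
      refine ⟨⟨θ0, rfl⟩, fun i hi => ?_⟩
      rw [← grB_vel hp hFr F i θ0]
      simp only [hθ0]
      rw [hw']
      have h2 := congrFun hc (⟨i, hi⟩ : Z)
      have h3 := hZsum c ⟨i, hi⟩
      simp only [Pi.sub_apply, sub_mul, Finset.sum_sub_distrib]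
      rw [sub_eq_zero]
      exact h2.symm.trans h3.symm
    have h4 : upB B (Fin s) w' ∈ Submodule.span K (Set.range v) := by
      have h5 := hN1 _ h1
      simp only [hθ0] at h5
      exact h5
    have h5 : w = w' + ∑ z, c z • (Pi.single (J z) 1 : B → K) := by
      rw [hw', sub_add_cancel]
    rw [h5, map_add, map_sum]
    refine Submodule.add_mem _ h4 (Submodule.sum_mem _ fun z _ => ?_)
    rw [map_smul, ← hvZ]
    exact Submodule.smul_mem _ _ (hsub _)
  have hspan : Submodule.span K (Set.range v) = ⊤ := by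
    rw [eq_top_iff]
    intro f _
    have h1 : f = upB B (Fin s) (fun i => f (Sum.inl i)) +
        ∑ b, f (Sum.inr b) • (v (Sum.inl (Sum.inl (Sum.inl (0, b)))) -
          upB B (Fin s) (fun a : B => θ 0 b (x a.1.succ))) := by
      funext r
      rw [Pi.add_apply, Finset.sum_apply]
      rcases r with r | r
      · rw [Finset.sum_eq_zero]
        · exact (add_zero _).symm
        · intro b _
          rw [Pi.smul_apply, Pi.sub_apply, hvc]
          show f (Sum.inr b) • (θ 0 b (x r.1.succ) - θ 0 b (x r.1.succ)) = 0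
          rw [sub_self, smul_zero]
      · rw [Finset.sum_eq_single r]
        · rw [Pi.smul_apply, Pi.sub_apply, hvc]
          show f (Sum.inr r) = 0 + f (Sum.inr r) • ((if r = r then x 0 else 0) - 0)
          rw [if_pos rfl, hp, sub_zero, zero_add, smul_eq_mul, mul_one]
        · intro b _ hb
          rw [Pi.smul_apply, Pi.sub_apply, hvc]
          show f (Sum.inr b) • ((if b = r then x 0 else 0) - 0) = 0
          rw [if_neg hb, sub_zero, smul_zero]
        · intro h
          exact absurd (Finset.mem_univ r) h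
    rw [h1]
    exact Submodule.add_mem _ (hup _) (Submodule.sum_mem _ fun b _ => Submodule.smul_mem _ _
      (Submodule.sub_mem _ (hsub _) (hup _)))
  -- the last columns are independent
  have hDxne : ∀ a : K, a • (fun b : B => D (x b.1.succ)) = 0 → a = 0 := by
    intro a ha
    by_contra h
    refine hPt.dx ?_
    have h1 : ∀ b : B, D' (x b.1.succ) = 0 := by
      intro b
      rw [hDD]
      exact (mul_eq_zero.1 (congrFun ha b)).resolve_left h
    funext i
    refine Fin.cases ?_ (fun a => ?_) i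
    · show D' (x 0) = 0
      rw [hp, ← map_one (algebraMap R K), D'.map_algebraMap]
    · show D' (x a.succ) = 0
      rw [hFr.rel D' a]
      exact Finset.sum_eq_zero fun b _ => by rw [h1, mul_zero]
  have hind : ∀ u : Unit ⊕ Z → K, u (Sum.inl ()) • v (Sum.inl (Sum.inr ())) +
      ∑ z, u (Sum.inr z) • v (Sum.inr z) = 0 → ∀ c, u c = 0 := by
    intro u hu
    have h1 : u (Sum.inl ()) • (fun b : B => D (x b.1.succ)) +
        ∑ z, u (Sum.inr z) • (Pi.single (J z) 1 : B → K) = 0 := by
      have h2 : upB B (Fin s) (u (Sum.inl ()) • (fun b : B => D (x b.1.succ)) +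
          ∑ z, u (Sum.inr z) • (Pi.single (J z) 1 : B → K)) = 0 := by
        rw [map_add, map_sum, map_smul, ← hvD]
        simp only [map_smul, ← hvZ]
        exact hu
      funext a
      exact congrFun h2 (Sum.inl a)
    have h2 : (fun z => u (Sum.inr z)) = 0 := by
      refine hJu _ fun i => ?_
      have h3 := hZsum (fun z => u (Sum.inr z)) i
      have h4 : ∑ b : B, D (x b.1.succ) * grB F x g i b = 0 := by
        have h5 := grB_vel hp hFr F i.1 D'
        have h6 : ∑ j, D' (x j) * eval x (pderiv j (F i)) = 0 := hE1.2 i i.2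
        rw [h6] at h5
        simp only [hDD] at h5
        exact h5
      have h5 : ∑ b : B, (u (Sum.inl ()) • (fun b : B => D (x b.1.succ)) +
          ∑ z, u (Sum.inr z) • (Pi.single (J z) 1 : B → K)) b * grB F x g i b = 0 := by
        rw [h1]
        exact Finset.sum_eq_zero fun b _ => by rw [Pi.zero_apply, zero_mul]
      simp only [Pi.add_apply, add_mul, Finset.sum_add_distrib] at h5
      rw [h3] at h5
      simp only [Pi.smul_apply, smul_eq_mul, mul_assoc, ← Finset.mul_sum, h4, mul_zero,
        zero_add] at h5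
      exact h5
    have h3 : u (Sum.inl ()) = 0 := by
      refine hDxne _ ?_
      rw [Finset.sum_eq_zero, add_zero] at h1
      · exact h1
      · intro z _
        rw [show u (Sum.inr z) = 0 from congrFun h2 z, zero_smul]
    rintro (⟨⟩ | z)
    · exact h3
    · exact congrFun h2 z
  obtain ⟨T, e0, hli⟩ := choose_cols v hspan hind
  refine ⟨T, e0, ?_⟩
  refine det_ne_zero_of_indep e0 _ ?_
  have h1 : (fun (c : (T ⊕ Unit) ⊕ Z) (r : B ⊕ Fin s) =>
      bigV D x (fun c : T => Sum.elim (fun p => θ p.1 p.2) θ' c.1)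
      (fun c : T => Sum.elim (fun p => p.1) (fun _ => 0) c.1)
      (fun c : T => Sum.elim (fun p => some p.2) (fun _ => none) c.1) J r c) =
      v ∘ (Sum.map (Sum.map (fun c : T => c.1) id) id :
        (T ⊕ Unit) ⊕ Z → (((Fin (n + 1) × Fin s) ⊕ ι) ⊕ Unit) ⊕ Z) := by
    funext c r
    rcases c with (c | c) | c <;> rcases r with r | r <;> rfl
  rw [h1]
  exact hli

end Pool.Agent.H96.VS
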