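import Pool.Agent.H17.VS.TargetsA

/-!
# MP_70ba79_ag: TAN, the frame of the coordinates `x b`, `b` in `B`
-/

set_option autoImplicit false

namespace Pool.Agent.H96.VS

open MvPolynomial SC Pool.Agent.H27.LV Pool.Agent.H17.VG Pool.Agent.H17.CI Pool.Agent.H17.VS

/-- derivatives of values of polynomials -/
private theorem der_aeval {R K : Type} [Field R] [Field K] [Algebra R K]
    (L0 L : IntermediateField R K) (hle : L0 ≤ L) (d : Derivation R K K)
    (hd : ∀ l ∈ L0, d l ∈ L) (z : K) (hz : z ∈ L) (p : Polynomial L0) :
    Polynomial.aeval z p ∈ L ∧ ∃ s ∈ L, d (Polynomial.aeval z p) =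
      s + Polynomial.aeval z (Polynomial.derivative p) * d z := by
  induction p using Polynomial.induction_on' with
  | add p q hp hq =>
    obtain ⟨h1, s, hs, h2⟩ := hp
    obtain ⟨h3, t, ht, h4⟩ := hq
    refine ⟨?_, s + t, add_mem hs ht, ?_⟩
    · rw [map_add]
      exact add_mem h1 h3
    · rw [map_add, map_add, h2, h4, map_add, map_add]
      ring
  | monomial n c =>
    have hc : algebraMap L0 K c = (c : K) := rfl
    refine ⟨?_, z ^ n * d (c : K), mul_mem (pow_mem hz n) (hd _ c.2), ?_⟩
    · rw [Polynomial.aeval_monomial, hc]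
      exact mul_mem (hle c.2) (pow_mem hz n)
    · rw [Polynomial.aeval_monomial, hc, d.leibniz, d.leibniz_pow, Polynomial.derivative_monomial,
        Polynomial.aeval_monomial, map_mul, map_natCast, hc]
      simp only [smul_eq_mul, nsmul_eq_mul]
      ring

/-- derivatives of algebraic elements -/
private theorem der_mem {R K : Type} [Field R] [CharZero R] [Field K] [Algebra R K]
    (L0 L : IntermediateField R K) (hle : L0 ≤ L) (d : Derivation R K K)
    (hd : ∀ l ∈ L0, d l ∈ L) (z : K) (hz : z ∈ L) (ha : IsAlgebraic L0 z) : d z ∈ L := by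
  have hint : IsIntegral L0 z := ha.isIntegral
  have hsep : (minpoly L0 z).Separable := (minpoly.irreducible hint).separable
  have h2 := hsep.aeval_derivative_ne_zero (minpoly.aeval L0 z)
  obtain ⟨-, s, hs, h3⟩ := der_aeval L0 L hle d hd z hz (minpoly L0 z)
  have h4 := (der_aeval L0 L hle d hd z hz (Polynomial.derivative (minpoly L0 z))).1
  rw [minpoly.aeval, map_zero] at h3
  have h5 : d z = -s / Polynomial.aeval z (Polynomial.derivative (minpoly L0 z)) := by
    rw [eq_div_iff h2]
    linear_combination -h3
  rw [h5]
  exact div_mem (neg_mem hs) h4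

/-- derivatives of elements of the field generated by `v` -/
private theorem der_adjoin {R K ι : Type} [Field R] [Field K] [Algebra R K]
    (v : ι → K) (d : Derivation R K K)
    (hd : ∀ i, d (v i) ∈ IntermediateField.adjoin R (Set.range v)) (l : K)
    (hl : l ∈ IntermediateField.adjoin R (Set.range v)) :
    d l ∈ IntermediateField.adjoin R (Set.range v) := by
  induction hl using IntermediateField.adjoin_induction with
  | mem y hy =>
    obtain ⟨i, rfl⟩ := hy
    exact hd i
  | algebraMap y =>
    rw [d.map_algebraMap]
    exact zero_mem _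
  | add y z _ _ h1 h2 =>
    rw [map_add]
    exact add_mem h1 h2
  | inv y hy h1 =>
    rw [d.leibniz_inv, smul_eq_mul]
    exact mul_mem (neg_mem (pow_mem (inv_mem hy) 2)) h1
  | mul y z hy hz h1 h2 =>
    rw [d.leibniz, smul_eq_mul, smul_eq_mul]
    exact add_mem (mul_mem hy h2) (mul_mem hz h1)

/-- a derivation which vanishes on a family vanishes on the elements algebraic over it -/
private theorem der_zero_elem {R K ι : Type} [Field R] [CharZero R] [Field K] [Algebra R K]
    (v : ι → K) (δ : Derivation R K K) (h0 : ∀ i, δ (v i) = 0) (a : K)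
    (ha : IsAlgebraic (IntermediateField.adjoin R (Set.range v)) a) : δ a = 0 := by
  set L := IntermediateField.adjoin R (Set.range v) with hLdef
  have hL : ∀ l ∈ L, δ l = 0 := by
    intro l hl
    induction hl using IntermediateField.adjoin_induction with
    | mem y hy =>
      obtain ⟨i, rfl⟩ := hy
      exact h0 i
    | algebraMap y => exact δ.map_algebraMap y
    | add y z _ _ h1 h2 => rw [map_add, h1, h2, add_zero]
    | inv y _ h1 => rw [δ.leibniz_inv, h1, smul_zero]
    | mul y z _ _ h1 h2 => rw [δ.leibniz, h1, h2, smul_zero, smul_zero, add_zero]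
  have key : ∀ p : Polynomial L, δ (Polynomial.aeval a p) =
      Polynomial.aeval a (Polynomial.derivative p) * δ a := by
    intro p
    induction p using Polynomial.induction_on' with
    | add p q hp hq =>
      rw [map_add, map_add, hp, hq, map_add, map_add]
      ring
    | monomial n c =>
      have hc : algebraMap L K c = (c : K) := rfl
      rw [Polynomial.aeval_monomial, hc, δ.leibniz, δ.leibniz_pow, Polynomial.derivative_monomial,
        Polynomial.aeval_monomial, map_mul, map_natCast, hc, hL _ c.2]
      simp only [smul_eq_mul, nsmul_eq_mul]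
      ring
  have hint : IsIntegral L a := ha.isIntegral
  have hsep : (minpoly L a).Separable := (minpoly.irreducible hint).separable
  have h2 := hsep.aeval_derivative_ne_zero (minpoly.aeval L a)
  have h1 := key (minpoly L a)
  rw [minpoly.aeval, map_zero] at h1
  rcases mul_eq_zero.1 h1.symm with h | h
  · exact absurd h h2
  · exact h

/-- derivations with given values on an algebraically independent family -/
private theorem der_ex (hG1 : T_G1) {R K ι : Type} [Field R] [CharZero R] [Field K] [Algebra R K]
    (v : ι → K) (hv : AlgebraicIndependent R v) (w : ι → K) :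
    ∃ D : Derivation R K K, ∀ i, D (v i) = w i := by
  classical
  obtain ⟨t, hst, ht⟩ := exists_isTranscendenceBasis_superset (R := R) (s := Set.range v)
    hv.to_subtype_range
  obtain ⟨D, hD⟩ := hG1 R K t _ ht
    (fun y => if h : ∃ i, v i = y.1 then w h.choose else 0)
  refine ⟨D, fun i => ?_⟩
  have h1 := hD ⟨v i, hst ⟨i, rfl⟩⟩
  have h2 : ∃ i', v i' = v i := ⟨i, rfl⟩
  have h3 : h2.choose = i := hv.injective h2.choose_spec
  simp only [dif_pos h2] at h1
  rw [h1, h3]

private theorem der_sum {R K ι : Type} [Field R] [Field K] [Algebra R K] (s : Finset ι)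
    (D : ι → Derivation R K K) (z : K) : (∑ i ∈ s, D i) z = ∑ i ∈ s, D i z := by
  classical
  induction s using Finset.induction_on with
  | empty => rw [Finset.sum_empty, Finset.sum_empty, Derivation.zero_apply]
  | insert a s ha ih => rw [Finset.sum_insert ha, Finset.sum_insert ha, Derivation.add_apply, ih]

/-- TAN -/
theorem pf_TAN (hG1 : T_G1) : T_TAN := by
  intro R K _ _ _ _ n x B hx0 hind hgen
  classical
  choose d hd using fun b : B => der_ex hG1 (fun b : B => x b.1.succ) hind (Pi.single b 1)
  set L0 := IntermediateField.adjoin R (Set.range fun b : B => x b.1.succ) with hL0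
  set L := IntermediateField.adjoin R (Set.range x) with hL
  have hle : L0 ≤ L := by
    apply IntermediateField.adjoin.mono
    rintro _ ⟨b, rfl⟩
    exact ⟨b.1.succ, rfl⟩
  refine ⟨fun a b => d b (x a.succ), ?_, ?_, ?_⟩
  · intro a b
    have h1 : d b (x a.succ) ∈ L := by
      refine der_mem L0 L hle (d b) ?_ _
        (IntermediateField.subset_adjoin R _ ⟨a.succ, rfl⟩) (hgen a.succ)
      intro l hl
      refine hle (der_adjoin _ (d b) ?_ l hl)
      intro b'
      rw [hd b b']
      by_cases h : b' = b
      · rw [h, Pi.single_eq_same]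
        exact one_mem _
      · rw [Pi.single_eq_of_ne h]
        exact zero_mem _
    exact isAlgebraic_algebraMap (⟨_, h1⟩ : L)
  · intro θ a
    have h1 : (θ - ∑ b : B, θ (x b.1.succ) • d b) (x a.succ) = 0 := by
      refine der_zero_elem (fun b : B => x b.1.succ) _ ?_ _ (hgen a.succ)
      intro b'
      rw [Derivation.sub_apply, der_sum]
      simp only [Derivation.smul_apply, hd, smul_eq_mul]
      rw [Finset.sum_eq_single b']
      · rw [Pi.single_eq_same, mul_one, sub_self]
      · intro b _ hb
        rw [Pi.single_eq_of_ne (Ne.symm hb), mul_zero]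
      · intro h
        exact absurd (Finset.mem_univ _) h
    rw [Derivation.sub_apply, der_sum, sub_eq_zero] at h1
    rw [h1]
    refine Finset.sum_congr rfl fun b _ => ?_
    rw [Derivation.smul_apply, smul_eq_mul, mul_comm]
  · intro w
    exact der_ex hG1 _ hind w

end Pool.Agent.H96.VS
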